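import Pool.Agent.V1150.RP.G

/-!
Reflection positivity for two-bridge (1,1)-tangles: logarithmic convexity along the words
`bar z (bar p p)^n z` with an arbitrary base `z`, and lower bounds for the growth.
-/

set_option autoImplicit false

namespace Pool.Agent.V1199.TB

open Matrix Finset Filter Topology Pool.Agent.H550R3.Jones Pool.Agent.W715.VC
open Pool.Agent.V1150.RP
open Pool.Agent.W719.BX (uA)
open scoped Kronecker

variable {N : ℕ}

/-- the word `bar z (bar p p)^n z` -/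
def zw (z p : List (ℕ × Bool)) (n : ℕ) : List (ℕ × Bool) :=
  dual z ++ (wpow (dual p ++ p) n ++ z)

/-- logarithmic convexity along the powers of a palindromic word, with an arbitrary base -/
theorem log_convex_base (hN : 0 < N) {z p : List (ℕ × Bool)} (hz : ∀ l ∈ z, l.1 < 2)
    (hp : ∀ l ∈ p, l.1 < 2) (n : ℕ) :
    ‖kv N hN (zw z p (n + 1))‖ ^ 2 ≤ ‖kv N hN (zw z p n)‖ * ‖kv N hN (zw z p (n + 2))‖ := by
  set T := rep3 N (dual p ++ p) with hT
  set x := rep3 N z *ᵥ psi N with hx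
  have hxK : InK (N - 1) x := rep3_InK hN z
  have hTe : T = hadj (rep3 N p) * rep3 N p := by rw [hT, rep3_append, hadj_rep3 hN hp]
  have hGT : Good T := good_rep3 _
  have hTK : ∀ n : ℕ, InK (N - 1) (T ^ n *ᵥ x) := by
    intro n
    induction n with
    | zero => rw [pow_zero, Matrix.one_mulVec]; exact hxK
    | succ n ih => rw [pow_succ', ← Matrix.mulVec_mulVec]; exact hGT.InK ih
  have hTadj : hadj T = T := by
    rw [hTe, hadj_mul]
    congr 1
    ext p q
    simp only [hadj, Complex.conj_conj, rv_rv]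
  have hself : ∀ n : ℕ, ∀ y w : I3 N → ℂ, Hf (T ^ n *ᵥ y) w = Hf y (T ^ n *ᵥ w) := by
    intro n
    induction n with
    | zero => intro y w; rw [pow_zero, Matrix.one_mulVec, Matrix.one_mulVec]
    | succ n ih =>
      intro y w
      conv_lhs => rw [pow_succ, ← Matrix.mulVec_mulVec]
      rw [ih, Hf_adj, hTadj, Matrix.mulVec_mulVec, ← pow_succ']
  have e0 : ∀ k, kv N hN (zw z p k) = Hf x (T ^ k *ᵥ x) := by
    intro k
    unfold zw
    rw [kv_dual hN hz, rep3_append, rep3_wpow, ← Matrix.mulVec_mulVec]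
  have e1 : ∀ i j, Hf (T ^ i *ᵥ x) (T ^ j *ᵥ x) = kv N hN (zw z p (i + j)) := by
    intro i j
    rw [hself, Matrix.mulVec_mulVec, ← pow_add, e0]
  have e2 : ∀ i j, Hf (rep3 N p *ᵥ (T ^ i *ᵥ x)) (rep3 N p *ᵥ (T ^ j *ᵥ x)) =
      kv N hN (zw z p (i + j + 1)) := by
    intro i j
    have e3 : ∀ w : I3 N → ℂ, hadj (rep3 N p) *ᵥ (rep3 N p *ᵥ w) = T *ᵥ w := by
      intro w
      rw [Matrix.mulVec_mulVec, ← hTe]
    have e4 : T *ᵥ (T ^ j *ᵥ x) = T ^ (j + 1) *ᵥ x := by
      rw [Matrix.mulVec_mulVec, ← pow_succ']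
    rw [Hf_adj, e3, e4, e1, ← add_assoc]
  rcases Nat.even_or_odd n with ⟨k, hk⟩ | ⟨k, hk⟩
  · have h := cs hN (hTK k) (hTK (k + 1))
    rw [e1, e1, e1] at h
    rw [show n + 1 = k + (k + 1) by omega, show n + 2 = k + 1 + (k + 1) by omega,
      show n = k + k by omega]
    exact h
  · have h := cs hN ((good_rep3 p).InK (hTK k)) ((good_rep3 p).InK (hTK (k + 1)))
    rw [e2, e2, e2] at h
    rw [show n + 1 = k + (k + 1) + 1 by omega, show n + 2 = k + 1 + (k + 1) + 1 by omega,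
      show n = k + k + 1 by omega]
    exact h

/-- a logarithmically convex sequence of nonnegative numbers -/
lemma convex_pow {a : ℕ → ℝ} (h0 : ∀ n, 0 ≤ a n) (h : ∀ n, a (n + 1) ^ 2 ≤ a n * a (n + 2))
    (n : ℕ) : a 1 ^ (n + 1) ≤ a 0 ^ n * a (n + 1) := by
  rcases (h0 1).lt_or_eq with h1 | h1
  · have key : ∀ n, 0 < a (n + 1) ∧ a 1 * a n ≤ a 0 * a (n + 1) := by
      intro n
      induction n with
      | zero => exact ⟨h1, le_of_eq (mul_comm _ _)⟩
      | succ n ih =>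
        have h2 := h n
        have h3 : 0 < a n * a (n + 2) := lt_of_lt_of_le (by have := ih.1; positivity) h2
        have h4 : 0 < a (n + 2) := by
          rcases (h0 (n + 2)).lt_or_eq with h5 | h5
          · exact h5
          · rw [← h5, mul_zero] at h3
            exact absurd h3 (lt_irrefl _)
        refine ⟨h4, ?_⟩
        have h5 : a 1 * a (n + 1) * a (n + 1) ≤ a 0 * a (n + 2) * a (n + 1) := by
          calc a 1 * a (n + 1) * a (n + 1) = a 1 * a (n + 1) ^ 2 := by ring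
            _ ≤ a 1 * (a n * a (n + 2)) := mul_le_mul_of_nonneg_left h2 h1.le
            _ = (a 1 * a n) * a (n + 2) := by ring
            _ ≤ (a 0 * a (n + 1)) * a (n + 2) := mul_le_mul_of_nonneg_right ih.2 h4.le
            _ = a 0 * a (n + 2) * a (n + 1) := by ring
        exact le_of_mul_le_mul_right h5 ih.1
    induction n with
    | zero => simp
    | succ n ih =>
      calc a 1 ^ (n + 1 + 1) = a 1 * a 1 ^ (n + 1) := by rw [pow_succ']
        _ ≤ a 1 * (a 0 ^ n * a (n + 1)) := mul_le_mul_of_nonneg_left ih h1.le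
        _ = a 0 ^ n * (a 1 * a (n + 1)) := by ring
        _ ≤ a 0 ^ n * (a 0 * a (n + 1 + 1)) :=
            mul_le_mul_of_nonneg_left (key (n + 1)).2 (pow_nonneg (h0 0) n)
        _ = a 0 ^ (n + 1) * a (n + 1 + 1) := by rw [pow_succ]; ring
  · rw [← h1, zero_pow (Nat.succ_ne_zero n)]
    exact mul_nonneg (pow_nonneg (h0 0) n) (h0 _)

/-- `x N` grows at least like `exp (L N / (2 π))` -/
def Lw (x : ℕ → ℝ) (L : ℝ) : Prop :=
  ∀ ε : ℝ, 0 < ε → ∀ᶠ N : ℕ in atTop, Real.exp ((L / (2 * Real.pi) - ε) * N) ≤ x N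

lemma kn_lt {w : List (ℕ × Bool)} (hN : 0 < N) : kn w N = ‖kv N hN w‖ := by
  unfold kn
  rw [dif_pos hN]

/-- the lower bound for the growth -/
theorem lower_base {z p : List (ℕ × Bool)} (hz : ∀ l ∈ z, l.1 < 2) (hp : ∀ l ∈ p, l.1 < 2)
    {L0 L1 : ℝ} (h0 : Gr (kn (zw z p 0)) L0) (h1 : Lw (kn (zw z p 1)) L1) (n : ℕ) :
    Lw (kn (zw z p (n + 1))) ((n + 1) * L1 - n * L0) := by
  intro ε hε
  have hd : 0 < ε / (2 * n + 1) := by positivity
  filter_upwards [h0 _ hd, h1 _ hd, eventually_gt_atTop 0] with N g0 g1 hN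
  have hNR : (0 : ℝ) < N := by exact_mod_cast hN
  set A : ℝ := (L1 / (2 * Real.pi) - ε / (2 * n + 1)) * N with hA
  set B : ℝ := (L0 / (2 * Real.pi) + ε / (2 * n + 1)) * N with hB
  have hc := convex_pow (a := fun k => kn (zw z p k) N) (fun k => kn_nonneg _ _)
    (fun k => by
      simp only [kn_lt hN]
      exact log_convex_base hN hz hp k) n
  have h3 : Real.exp A ^ (n + 1) ≤ Real.exp B ^ n * kn (zw z p (n + 1)) N := by
    calc Real.exp A ^ (n + 1) ≤ kn (zw z p 1) N ^ (n + 1) :=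
          pow_le_pow_left₀ (Real.exp_pos _).le g1 _
      _ ≤ kn (zw z p 0) N ^ n * kn (zw z p (n + 1)) N := hc
      _ ≤ Real.exp B ^ n * kn (zw z p (n + 1)) N :=
          mul_le_mul_of_nonneg_right (pow_le_pow_left₀ (kn_nonneg _ _) g0 _) (kn_nonneg _ _)
  rw [← Real.exp_nat_mul, ← Real.exp_nat_mul] at h3
  have h4 : Real.exp (((n + 1 : ℕ) : ℝ) * A - n * B) ≤ kn (zw z p (n + 1)) N := by
    rw [Real.exp_sub, div_le_iff₀ (Real.exp_pos _)]
    rw [mul_comm (kn _ N)]
    exact h3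
  refine le_trans (le_of_eq ?_) h4
  congr 1
  rw [hA, hB]
  push_cast
  have hn : (2 * (n : ℝ) + 1) ≠ 0 := by positivity
  have hpi := Real.pi_ne_zero
  field_simp
  ring

/-! ### the words of `C(a, b, …, b, a)` -/

lemma wpow_succ (w : List (ℕ × Bool)) (n : ℕ) : wpow w (n + 1) = w ++ wpow w n := by
  simp [wpow, List.replicate_succ]

lemma wpow_comm (D U : List (ℕ × Bool)) (n : ℕ) :
    wpow (D ++ U) n ++ D = D ++ wpow (U ++ D) n := by
  induction n with
  | zero => simp [wpow]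
  | succ n ih =>
    rw [wpow_succ, wpow_succ, List.append_assoc, ih]
    simp only [List.append_assoc]

lemma wpow_snoc (w : List (ℕ × Bool)) (n : ℕ) : wpow w (n + 1) = wpow w n ++ w := by
  induction n with
  | zero => simp [wpow]
  | succ n ih =>
    conv_lhs => rw [wpow_succ w (n + 1), ih, ← List.append_assoc, ← wpow_succ]

/-- the word of `C(a, b, …, b, a)` with `2 n` entries `b` -/
def cw (a b n : ℕ) : List (ℕ × Bool) :=
  List.replicate a (1, false) ++
    (wpow (List.replicate b (0, true) ++ List.replicate b (1, false)) n ++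
      List.replicate a (0, true))

lemma zw_eq (b c n : ℕ) : zw (uA c) (uA b) (n + 1) = cw (c + b) b n := by
  unfold zw cw
  rw [dual_uA, dual_uA]
  have e : uA b = List.replicate b (0, true) := rfl
  have e' : uA c = List.replicate c (0, true) := rfl
  rw [e, e', wpow_snoc, ← List.append_assoc (wpow _ n), wpow_comm]
  have h1 : List.replicate (c + b) ((1 : ℕ), false) =
      List.replicate c (1, false) ++ List.replicate b (1, false) := List.replicate_add ..
  have h2 : List.replicate (c + b) ((0 : ℕ), true) =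
      List.replicate b (0, true) ++ List.replicate c (0, true) := by
    rw [Nat.add_comm]
    exact List.replicate_add ..
  rw [h1, h2]
  simp only [List.append_assoc]

lemma zw_zero (b c : ℕ) : zw (uA c) (uA b) 0 = dual (uA c) ++ uA c := by
  unfold zw
  rw [wpow_zero', List.nil_append]

lemma cw_zero (a b : ℕ) : cw a b 0 = dual (uA a) ++ uA a := by
  unfold cw
  rw [wpow_zero', List.nil_append, dual_uA]
  rfl

/-- a limit of the growth rates of a palindromic link gives a lower bound -/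
lemma Lw.of_tendsto {u : List (ℕ × Bool)} (hu : ∀ l ∈ u, l.1 < 2) {W : ℝ}
    (h1 : Tendsto (fun N : ℕ => 2 * Real.pi * (Real.log (kn (dual u ++ u) N) / N)) atTop (𝓝 W)) :
    Lw (kn (dual u ++ u)) W := by
  intro ε hε
  have hpi := Real.pi_pos
  filter_upwards [h1.eventually (lt_mem_nhds (show W - 2 * Real.pi * ε < W by
    have : 0 < 2 * Real.pi * ε := by positivity
    linarith)), eventually_gt_atTop 0] with N h2 hN
  have hNR : (0 : ℝ) < N := by exact_mod_cast hN
  obtain ⟨r, hr, h4⟩ := kv_self_pos hN hu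
  have h5 : kn (dual u ++ u) N = r := by
    rw [kn_lt hN, h4, Complex.norm_real, Real.norm_of_nonneg hr.le]
  rw [h5] at h2 ⊢
  rw [← Real.le_log_iff_exp_le hr]
  have h7 : (W - 2 * Real.pi * ε) / (2 * Real.pi) < Real.log r / N := by
    rw [div_lt_iff₀ (by positivity)]
    linarith
  rw [lt_div_iff₀ hNR] at h7
  refine le_trans (le_of_eq ?_) h7.le
  field_simp

/-! ### the Hopf link -/

lemma crossP_zero (hN : 0 < N) (p : Fin N × Fin N) (k : Fin N) :
    ‖crossP N (rt N) p (⟨0, hN⟩, k)‖ ≤ if p.1 = k ∧ (p.2 : ℕ) = 0 then 1 else 0 := by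
  unfold crossP
  by_cases h : (p.1 : ℕ) + p.2 = 0 + k ∧ (k : ℕ) ≤ p.1
  · have h1 : (p.1 : ℕ) = k := by omega
    have h2 : (p.2 : ℕ) = 0 := by omega
    rw [if_pos h, if_pos ⟨Fin.ext h1, h2⟩]
    simp only [h1, h2, Nat.sub_self]
    have hb : brf (rt N) (k : ℕ) ≠ 0 := Pool.Agent.V1150.RP.brf_ne hN k.isLt
    have hb0 : brf (rt N) 0 = 1 := by unfold brf; simp
    simp only [hb0, mul_one, div_self hb, Finset.range_zero, Finset.prod_empty]
    rw [norm_mul, norm_rt_zpow]
    simp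
  · rw [if_neg h, norm_zero]
    split_ifs <;> norm_num

lemma hopf_entry (hN : 0 < N) (p : I3 N) :
    ‖(rep3 N (uA 1) *ᵥ psi N) p‖ ≤ if (p.2.1 : ℕ) = 0 ∧ (p.1 : ℕ) + p.2.2 = N - 1 then 1 else 0 := by
  have e1 : rep3 N (uA 1) = on12 (PP N) := by
    have : uA 1 = [((0 : ℕ), true)] := rfl
    rw [this, rep3_cons, rep3_nil, mul_one]
    simp [g3]
  rw [e1, Matrix.mulVec, dotProduct, sum_psi hN]
  refine (_root_.norm_sum_le _ _).trans ?_
  have h1 : ∀ q : Fin N × Fin N, ‖on12 (PP N) p (⟨0, hN⟩, q) * cup N (rt N) q‖ ≤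
      if q = (p.1, p.2.2) then (if (p.2.1 : ℕ) = 0 ∧ (p.1 : ℕ) + p.2.2 = N - 1 then (1 : ℝ) else 0)
        else 0 := by
    intro q
    rw [norm_mul]
    unfold cup on12
    by_cases hq : p.2.2 = q.2
    · rw [if_pos hq]
      have h2 := crossP_zero hN (p.1, p.2.1) q.1
      change ‖crossP N (rt N) (p.1, p.2.1) (⟨0, hN⟩, q.1)‖ * _ ≤ _
      by_cases h3 : p.1 = q.1 ∧ (p.2.1 : ℕ) = 0
      · rw [if_pos h3] at h2
        by_cases h4 : (q.1 : ℕ) + q.2 = N - 1
        · have hq2 : q = (p.1, p.2.2) := Prod.ext h3.1.symm hq.symm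
          have hp2 : (p.2.1 : ℕ) = 0 ∧ (p.1 : ℕ) + p.2.2 = N - 1 :=
            ⟨h3.2, by rw [h3.1, hq]; exact h4⟩
          rw [if_pos h4, kap_norm hN q.1.isLt, mul_one, if_pos hq2, if_pos hp2]
          exact h2
        · rw [if_neg h4, norm_zero, mul_zero]
          split_ifs <;> norm_num
      · rw [if_neg h3] at h2
        have h5 : ‖crossP N (rt N) (p.1, p.2.1) (⟨0, hN⟩, q.1)‖ = 0 :=
          le_antisymm h2 (norm_nonneg _)
        rw [h5, zero_mul]
        split_ifs <;> norm_num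
    · rw [if_neg hq, norm_zero, zero_mul]
      split_ifs <;> norm_num
  refine (Finset.sum_le_sum fun q _ => h1 q).trans ?_
  rw [Finset.sum_ite_eq' Finset.univ (p.1, p.2.2)]
  rw [if_pos (Finset.mem_univ _)]

/-- the invariant of the Hopf link `C(1, 1)` -/
theorem hopf_le (hN : 0 < N) : kn (dual (uA 1) ++ uA 1) N ≤ N := by
  rw [kn_lt hN, kv_dual hN (uA_lt 1)]
  set x := rep3 N (uA 1) *ᵥ psi N with hx
  unfold Hf
  refine (_root_.norm_sum_le _ _).trans ?_
  have h1 : ∀ p : I3 N, ‖(starRingEnd ℂ) (x p) * x (rv p)‖ ≤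
      if (p.2.1 : ℕ) = 0 ∧ (p.1 : ℕ) + p.2.2 = N - 1 then (1 : ℝ) else 0 := by
    intro p
    rw [norm_mul, RCLike.norm_conj]
    have g1 := hopf_entry hN p
    have g2 := hopf_entry hN (rv p)
    rw [← hx] at g1 g2
    by_cases h : (p.2.1 : ℕ) = 0 ∧ (p.1 : ℕ) + p.2.2 = N - 1
    · rw [if_pos h] at g1 ⊢
      have g3 : ‖x (rv p)‖ ≤ 1 := by
        refine g2.trans ?_
        split_ifs <;> norm_num
      nlinarith [norm_nonneg (x p), norm_nonneg (x (rv p))]
    · rw [if_neg h] at g1 ⊢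
      have g3 : ‖x p‖ = 0 := le_antisymm g1 (norm_nonneg _)
      rw [g3, zero_mul]
  refine (Finset.sum_le_sum fun p _ => h1 p).trans ?_
  rw [Fintype.sum_prod_type]
  have h2 : ∀ a : Fin N, ∑ q : Fin N × Fin N,
      (if (q.1 : ℕ) = 0 ∧ (a : ℕ) + q.2 = N - 1 then (1 : ℝ) else 0) ≤ 1 := by
    intro a
    have h3 : ∀ q : Fin N × Fin N, (if (q.1 : ℕ) = 0 ∧ (a : ℕ) + q.2 = N - 1 then (1 : ℝ) else 0) ≤
        if q = (⟨0, hN⟩, ⟨N - 1 - a, by omega⟩) then (1 : ℝ) else 0 := by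
      intro q
      by_cases h : (q.1 : ℕ) = 0 ∧ (a : ℕ) + q.2 = N - 1
      · rw [if_pos h, if_pos]
        refine Prod.ext (Fin.ext h.1) (Fin.ext ?_)
        simp only
        omega
      · rw [if_neg h]
        split_ifs <;> norm_num
    refine (Finset.sum_le_sum fun q _ => h3 q).trans ?_
    rw [Finset.sum_ite_eq' Finset.univ, if_pos (Finset.mem_univ _)]
  refine (Finset.sum_le_sum fun a _ => h2 a).trans ?_
  simp

theorem gr_one : Gr (kn (dual (uA 1) ++ uA 1)) 0 := by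
  intro ε hε
  filter_upwards [Gr.add_cube Gr.one le_rfl ε hε, eventually_gt_atTop 0] with N h1 hN
  refine (hopf_le hN).trans (le_trans ?_ h1)
  have h2 : (1 : ℝ) ≤ N := by exact_mod_cast hN
  nlinarith [sq_nonneg ((N : ℝ) - 1), mul_nonneg (sub_nonneg.2 h2) (sub_nonneg.2 h2)]

end Pool.Agent.V1199.TB
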