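import Pool.Agent.V1150.RP.D

/-!
The mirror image of a two-bridge (1,1)-tangle.
-/

set_option autoImplicit false

namespace Pool.Agent.V1199.TB

open Matrix Finset Pool.Agent.H550R3.Jones Pool.Agent.W715.VC Pool.Agent.V1150.RP
open scoped Kronecker

variable {N : ℕ}

/-- complex conjugation of the positive crossing gives the negative crossing of the flipped basis,
up to a gauge transformation -/
lemma P_conj (p q : Fin N × Fin N) :
    rt N ^ (-(((p.1 : ℕ) : ℤ) ^ 2 + ((p.2 : ℕ) : ℤ) ^ 2)) *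
        (starRingEnd ℂ) (PP N (p.2, p.1) (q.2, q.1)) =
      QQ N p q * rt N ^ (-(((q.1 : ℕ) : ℤ) ^ 2 + ((q.2 : ℕ) : ℤ) ^ 2)) := by
  unfold PP QQ crossP crossN
  dsimp only
  by_cases hc : (p.1 : ℕ) + p.2 = q.1 + q.2 ∧ (q.1 : ℕ) ≤ p.2
  · have hc' : (p.2 : ℕ) + p.1 = q.2 + q.1 ∧ (q.1 : ℕ) ≤ p.2 := by omega
    rw [if_pos hc', if_pos hc]
    obtain ⟨n, hn⟩ : ∃ n, (p.2 : ℕ) = q.1 + n := ⟨p.2 - q.1, by omega⟩
    have e2 : (p.2 : ℕ) - q.1 = n := by omega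
    rw [e2]
    have hN : 0 < N := lt_of_le_of_lt (Nat.zero_le _) p.1.2
    have b1 : brf (rt N) p.2 ≠ 0 := Pool.Agent.V1150.RP.brf_ne hN p.2.2
    have b2 : brf (rt N) q.1 ≠ 0 := Pool.Agent.V1150.RP.brf_ne hN q.1.2
    have b3 : brf (rt N) n ≠ 0 := Pool.Agent.V1150.RP.brf_ne hN (by have := p.2.2; omega)
    have cP : (starRingEnd ℂ) (∏ t ∈ range n, br (rt N) ((N : ℤ) - (q.2 : ℕ) + t)) =
        (-1) ^ n * ∏ t ∈ range n, br (rt N) ((N : ℤ) - (q.2 : ℕ) + t) := by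
      rw [map_prod]
      simp only [conj_br]
      rw [prod_neg, card_range]
    have e5 : (starRingEnd ℂ) (rt N ^ (n * (n - 1) / 2)) = (rt N ^ (n * (n - 1) / 2))⁻¹ := by
      rw [← zpow_natCast, conj_rt_zpow, _root_.zpow_neg]
    have e8 : ((-1 : ℂ) ^ (p.2 : ℕ)) = (-1) ^ (q.1 : ℕ) * (-1) ^ n := by rw [hn, pow_add]
    simp only [map_mul, map_div₀, conj_rt_zpow, conj_brf, cP, e5]
    rw [e8]
    have e9 : rt N ^ (-(((p.1 : ℕ) : ℤ) ^ 2 + ((p.2 : ℕ) : ℤ) ^ 2)) *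
        rt N ^ (-(-((N : ℤ) - 1) * (1 + (q.2 : ℕ) + (q.1 : ℕ)) + 2 * (p.2 : ℕ) * (p.1 : ℕ))) =
        rt N ^ (((N : ℤ) - 1) * (1 + (q.1 : ℕ) + (q.2 : ℕ)) - 2 * (q.1 : ℕ) * (q.2 : ℕ)) *
          rt N ^ (-(((q.1 : ℕ) : ℤ) ^ 2 + ((q.2 : ℕ) : ℤ) ^ 2)) := by
      rw [← zpow_add₀ (rt_ne N), ← zpow_add₀ (rt_ne N)]
      congr 1
      have h3 : ((p.1 : ℕ) : ℤ) + (p.2 : ℕ) = (q.1 : ℕ) + (q.2 : ℕ) := by omega
      linear_combination (-(((p.1 : ℕ) : ℤ) + (p.2 : ℕ)) - ((q.1 : ℕ) + (q.2 : ℕ))) * h3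
    have s3 : ((-1 : ℂ) ^ (q.1 : ℕ)) ≠ 0 := pow_ne_zero _ (by norm_num)
    have s4 : ((-1 : ℂ) ^ n) ≠ 0 := pow_ne_zero _ (by norm_num)
    have s5 : rt N ^ (n * (n - 1) / 2) ≠ 0 := pow_ne_zero _ (rt_ne N)
    generalize rt N ^ (n * (n - 1) / 2) = X at *
    generalize rt N ^ (-(((p.1 : ℕ) : ℤ) ^ 2 + ((p.2 : ℕ) : ℤ) ^ 2)) = Y1 at *
    generalize rt N ^ (-(-((N : ℤ) - 1) * (1 + (q.2 : ℕ) + (q.1 : ℕ)) +
      2 * (p.2 : ℕ) * (p.1 : ℕ))) = Y2 at *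
    generalize rt N ^ (((N : ℤ) - 1) * (1 + (q.1 : ℕ) + (q.2 : ℕ)) -
      2 * (q.1 : ℕ) * (q.2 : ℕ)) = Y3 at *
    generalize rt N ^ (-(((q.1 : ℕ) : ℤ) ^ 2 + ((q.2 : ℕ) : ℤ) ^ 2)) = Y4 at *
    generalize (∏ t ∈ range n, br (rt N) ((N : ℤ) - (q.2 : ℕ) + t)) = U at *
    generalize brf (rt N) p.2 = B1 at *
    generalize brf (rt N) q.1 = B2 at *
    generalize brf (rt N) n = B3 at *
    generalize ((-1 : ℂ) ^ (q.1 : ℕ)) = S1 at *
    generalize ((-1 : ℂ) ^ n) = S2 at *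
    field_simp
    linear_combination U * e9
  · have hc' : ¬ ((p.2 : ℕ) + p.1 = q.2 + q.1 ∧ (q.1 : ℕ) ≤ p.2) := by omega
    rw [if_neg hc', if_neg hc, map_zero, mul_zero, zero_mul]

/-- the antilinear symmetry -/
noncomputable def Jc (x : I3 N → ℂ) : I3 N → ℂ := fun p =>
  rt N ^ (-(((p.1 : ℕ) : ℤ) ^ 2 + ((p.2.1 : ℕ) : ℤ) ^ 2 + ((p.2.2 : ℕ) : ℤ) ^ 2)) *
    (starRingEnd ℂ) (x (rv p))

lemma gauge_split (a b c : ℤ) : rt N ^ (-(a ^ 2 + b ^ 2 + c ^ 2)) =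
    rt N ^ (-(a ^ 2)) * rt N ^ (-(b ^ 2 + c ^ 2)) := by
  rw [← zpow_add₀ (rt_ne N)]
  congr 1
  ring

lemma gauge_split' (a b c : ℤ) : rt N ^ (-(a ^ 2 + b ^ 2 + c ^ 2)) =
    rt N ^ (-(a ^ 2 + b ^ 2)) * rt N ^ (-(c ^ 2)) := by
  rw [← zpow_add₀ (rt_ne N)]
  congr 1
  ring

lemma Jc_P12 (x : I3 N → ℂ) : Jc (on12 (PP N) *ᵥ x) = on23 (QQ N) *ᵥ Jc x := by
  funext p
  obtain ⟨a, b, c⟩ := p
  rw [Pool.Agent.W715.VC.on23_mulVec]
  unfold Jc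
  dsimp only [rv]
  rw [Pool.Agent.W715.VC.on12_mulVec, map_sum, mul_sum,
    ← Equiv.sum_comp (Equiv.prodComm (Fin N) (Fin N))]
  refine sum_congr rfl fun q _ => ?_
  dsimp only [Equiv.prodComm_apply, Prod.fst_swap, Prod.snd_swap]
  have h := P_conj (b, c) q
  dsimp only at h
  have e : Prod.swap q = (q.2, q.1) := rfl
  rw [map_mul, gauge_split, gauge_split ((a : ℕ) : ℤ) ((q.1 : ℕ) : ℤ), e]
  linear_combination (rt N ^ (-(((a : ℕ) : ℤ) ^ 2)) * (starRingEnd ℂ) (x (q.2, (q.1, a)))) * h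

lemma Jc_P23 (x : I3 N → ℂ) : Jc (on23 (PP N) *ᵥ x) = on12 (QQ N) *ᵥ Jc x := by
  funext p
  obtain ⟨a, b, c⟩ := p
  rw [Pool.Agent.W715.VC.on12_mulVec]
  unfold Jc
  dsimp only [rv]
  rw [Pool.Agent.W715.VC.on23_mulVec, map_sum, mul_sum,
    ← Equiv.sum_comp (Equiv.prodComm (Fin N) (Fin N))]
  refine sum_congr rfl fun q _ => ?_
  dsimp only [Equiv.prodComm_apply, Prod.fst_swap, Prod.snd_swap]
  have h := P_conj (a, b) q
  dsimp only at h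
  have e : Prod.swap q = (q.2, q.1) := rfl
  rw [map_mul, gauge_split', gauge_split' ((q.1 : ℕ) : ℤ), e]
  linear_combination (rt N ^ (-(((c : ℕ) : ℤ) ^ 2)) * (starRingEnd ℂ) (x (c, (q.2, q.1)))) * h

lemma Jc_Q12 (x : I3 N → ℂ) : Jc (on12 (QQ N) *ᵥ x) = on23 (PP N) *ᵥ Jc x := by
  have h := Jc_P12 (on12 (QQ N) *ᵥ x)
  rw [Matrix.mulVec_mulVec, on12_mul, PP_QQ, on12_one, Matrix.one_mulVec] at h
  rw [h, Matrix.mulVec_mulVec, on23_mul, PP_QQ, on23_one, Matrix.one_mulVec]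

lemma Jc_Q23 (x : I3 N → ℂ) : Jc (on23 (QQ N) *ᵥ x) = on12 (PP N) *ᵥ Jc x := by
  have h := Jc_P23 (on23 (QQ N) *ᵥ x)
  rw [Matrix.mulVec_mulVec, on23_mul, PP_QQ, on23_one, Matrix.one_mulVec] at h
  rw [h, Matrix.mulVec_mulVec, on12_mul, PP_QQ, on12_one, Matrix.one_mulVec]

lemma Jc_g3 {l : ℕ × Bool} (hl : l.1 < 2) (x : I3 N → ℂ) :
    Jc (g3 N l *ᵥ x) = g3 N (dl l) *ᵥ Jc x := by
  obtain ⟨k, b⟩ := l
  simp only at hl
  have hk : k = 0 ∨ k = 1 := by omega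
  rcases hk with rfl | rfl <;> cases b
  · simp [g3, dl, Jc_Q12]
  · simp [g3, dl, Jc_P12]
  · simp [g3, dl, Jc_Q23]
  · simp [g3, dl, Jc_P23]

lemma Jc_rep3 {w : List (ℕ × Bool)} (hw : ∀ l ∈ w, l.1 < 2) (x : I3 N → ℂ) :
    Jc (rep3 N w *ᵥ x) = rep3 N (w.map dl) *ᵥ Jc x := by
  induction w with
  | nil => simp [rep3_nil]
  | cons l w ih =>
    rw [rep3_cons, ← Matrix.mulVec_mulVec, Jc_g3 (hw l List.mem_cons_self),
      ih (fun l hl => hw l (List.mem_cons_of_mem _ hl)), List.map_cons, rep3_cons,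
      ← Matrix.mulVec_mulVec]

lemma Hf_Jc (x y : I3 N → ℂ) : Hf (Jc x) (Jc y) = Hf y x := by
  unfold Hf
  refine sum_congr rfl fun p _ => ?_
  unfold Jc
  rw [map_mul, Complex.conj_conj, conj_rt_zpow, rv_rv]
  have e : rt N ^ (-(-(((p.1 : ℕ) : ℤ) ^ 2 + ((p.2.1 : ℕ) : ℤ) ^ 2 + ((p.2.2 : ℕ) : ℤ) ^ 2))) *
      rt N ^ (-((((rv p).1 : ℕ) : ℤ) ^ 2 + (((rv p).2.1 : ℕ) : ℤ) ^ 2 +
        (((rv p).2.2 : ℕ) : ℤ) ^ 2)) = 1 := by
    rw [← zpow_add₀ (rt_ne N)]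
    have : -(-(((p.1 : ℕ) : ℤ) ^ 2 + ((p.2.1 : ℕ) : ℤ) ^ 2 + ((p.2.2 : ℕ) : ℤ) ^ 2)) +
        -((((rv p).1 : ℕ) : ℤ) ^ 2 + (((rv p).2.1 : ℕ) : ℤ) ^ 2 +
          (((rv p).2.2 : ℕ) : ℤ) ^ 2) = 0 := by
      simp only [rv]; ring
    rw [this, zpow_zero]
  linear_combination (x (rv p) * (starRingEnd ℂ) (y p)) * e

/-- the vector `cup ⊗ e_0` -/
noncomputable def phi (N : ℕ) : I3 N → ℂ := fun p =>
  if (p.2.2 : ℕ) = 0 ∧ (p.1 : ℕ) + p.2.1 = N - 1 then kap N (rt N) p.1 else 0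

lemma P12_psi (hN : 0 < N) : on12 (PP N) *ᵥ psi N = fun p =>
    if (p.2.1 : ℕ) = 0 ∧ (p.1 : ℕ) + p.2.2 = N - 1 then
      rt N ^ (-((N : ℤ) - 1) * (1 + (p.1 : ℕ))) * kap N (rt N) p.1 else 0 := by
  funext p
  obtain ⟨a, b, c⟩ := p
  rw [Pool.Agent.W715.VC.on12_mulVec]
  dsimp only
  by_cases h : (b : ℕ) = 0 ∧ (a : ℕ) + c = N - 1
  · rw [if_pos h, sum_eq_single ((⟨0, hN⟩, a) : Fin N × Fin N)]
    · unfold psi cup
      dsimp only
      rw [if_pos rfl, if_pos h.2]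
      congr 1
      exact P_zero_val' (adm N) h.1 rfl rfl
    · intro q _ hq
      by_contra h1
      have h2 := left_ne_zero_of_mul h1
      have h3 := right_ne_zero_of_mul h1
      apply hq
      unfold psi at h3
      dsimp only at h3
      by_cases h4 : (q.1 : ℕ) = 0
      · obtain ⟨h5, _⟩ := P_col_zero (v := rt N) h4 h2
        exact Prod.ext (Fin.ext h4) h5.symm
      · rw [if_neg h4] at h3
        exact absurd rfl h3
    · intro h1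
      exact absurd (mem_univ _) h1
  · rw [if_neg h]
    refine sum_eq_zero fun q _ => ?_
    by_contra h1
    have h2 := left_ne_zero_of_mul h1
    have h3 := right_ne_zero_of_mul h1
    unfold psi cup at h3
    dsimp only at h3
    split_ifs at h3 with h4 h5
    · obtain ⟨h6, h7⟩ := P_col_zero (v := rt N) h4 h2
      apply h
      dsimp only at h6 h7
      exact ⟨h7, by rw [h6]; exact h5⟩
    · exact h3 rfl
    · exact h3 rfl

lemma P23_P12_psi (hN : 0 < N) : on23 (PP N) *ᵥ (on12 (PP N) *ᵥ psi N) =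
    (rt N ^ (-((N : ℤ) - 1) * ((N : ℤ) + 1))) • phi N := by
  rw [P12_psi hN]
  funext p
  obtain ⟨a, b, c⟩ := p
  rw [Pool.Agent.W715.VC.on23_mulVec, Pi.smul_apply, smul_eq_mul]
  unfold phi
  dsimp only
  by_cases h : (c : ℕ) = 0 ∧ (a : ℕ) + b = N - 1
  · rw [if_pos h, sum_eq_single ((⟨0, hN⟩, b) : Fin N × Fin N)]
    · dsimp only
      rw [if_pos ⟨rfl, h.2⟩]
      have e : PP N (b, c) (⟨0, hN⟩, b) = rt N ^ (-((N : ℤ) - 1) * (1 + (b : ℕ))) :=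
        P_zero_val' (adm N) h.1 rfl rfl
      rw [e, ← mul_assoc, ← zpow_add₀ (rt_ne N)]
      congr 2
      have h1 : ((a : ℕ) : ℤ) + (b : ℕ) = (N : ℤ) - 1 := by omega
      linear_combination (-((N : ℤ) - 1)) * h1
    · intro q _ hq
      by_contra h1
      have h2 := left_ne_zero_of_mul h1
      have h3 := right_ne_zero_of_mul h1
      apply hq
      split_ifs at h3 with h4
      · obtain ⟨h5, _⟩ := P_col_zero (v := rt N) h4.1 h2
        exact Prod.ext (Fin.ext h4.1) h5.symm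
      · exact absurd rfl h3
    · intro h1
      exact absurd (mem_univ _) h1
  · rw [if_neg h, mul_zero]
    refine sum_eq_zero fun q _ => ?_
    by_contra h1
    have h2 := left_ne_zero_of_mul h1
    have h3 := right_ne_zero_of_mul h1
    split_ifs at h3 with h4
    · obtain ⟨h6, h7⟩ := P_col_zero (v := rt N) h4.1 h2
      apply h
      dsimp only at h6 h7
      exact ⟨h7, by rw [h6]; exact h4.2⟩
    · exact h3 rfl

lemma kap_conj (hN : 0 < N) {k : ℕ} (hk : k < N) :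
    (starRingEnd ℂ) (kap N (rt N) (N - 1 - k)) =
      ((-1) ^ (N - 1) * rt N ^ ((N : ℤ) - 1 - 2 * (k : ℕ) * ((N : ℤ) - 1 - (k : ℕ)))) *
        kap N (rt N) k := by
  rw [kap_rt hN (by omega), kap_rt hN hk, map_mul, conj_rt_zpow, map_pow, map_neg, map_one]
  have e1 : ((N - 1 - k : ℕ) : ℤ) = (N : ℤ) - 1 - k := by omega
  have e2 : ((-1 : ℂ)) ^ (N - 1 - k) = (-1) ^ (N - 1) * (-1) ^ k := by
    have h1 : N - 1 = (N - 1 - k) + k := by omega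
    conv_rhs => rw [h1]
    rw [pow_add, mul_assoc, ← mul_pow, neg_one_mul, neg_neg, one_pow, mul_one]
  rw [e1, e2]
  have e3 : rt N ^ (-(((N : ℤ) - 1 - k) * ((N : ℤ) - 2 - ((N : ℤ) - 1 - k)))) =
      rt N ^ ((N : ℤ) - 1 - 2 * (k : ℕ) * ((N : ℤ) - 1 - (k : ℕ))) *
        rt N ^ ((k : ℤ) * ((N : ℤ) - 2 - k)) := by
    rw [← zpow_add₀ (rt_ne N)]
    congr 1
    ring
  rw [e3]
  ring

lemma Jc_psi (hN : 0 < N) : Jc (psi N) =
    ((-1) ^ (N - 1) * rt N ^ ((N : ℤ) - 1 - ((N : ℤ) - 1) ^ 2)) • phi N := by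
  funext p
  obtain ⟨a, b, c⟩ := p
  unfold Jc phi psi cup
  rw [Pi.smul_apply, smul_eq_mul]
  dsimp only [rv]
  by_cases h : (c : ℕ) = 0 ∧ (a : ℕ) + b = N - 1
  · have h1 : (b : ℕ) + a = N - 1 := by omega
    rw [if_pos h, if_pos h.1, if_pos h1]
    have h2 : (b : ℕ) = N - 1 - a := by omega
    rw [h2, kap_conj hN a.isLt, ← mul_assoc]
    congr 1
    have h3 : ((N - 1 - (a : ℕ) : ℕ) : ℤ) = (N : ℤ) - 1 - (a : ℕ) := by omega
    rw [h3, h.1, mul_left_comm, ← zpow_add₀ (rt_ne N)]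
    congr 2
    push_cast
    ring
  · rw [if_neg h]
    by_cases h1 : (c : ℕ) = 0
    · rw [if_pos h1, if_neg (fun h2 => h ⟨h1, by omega⟩), map_zero, mul_zero, mul_zero]
    · rw [if_neg h1, map_zero, mul_zero, mul_zero]

lemma kap_zero (hN : 0 < N) : kap N (rt N) 0 = 1 := by
  rw [kap_rt hN hN]
  simp

lemma P23_psi (hN : 0 < N) : on23 (PP N) *ᵥ psi N =
    (rt N ^ (-((N : ℤ) - 1) * N) * kap N (rt N) (N - 1)) • psi N := by
  have h1 : InK (N - 1) (on23 (PP N) *ᵥ psi N) := by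
    have := rep3_InK hN [((1 : ℕ), true)]
    simpa [rep3_cons, rep3_nil, g3] using this
  refine InK_ext hN h1 (InK_smul (psi_InK hN) _) fun a ha => ?_
  have e : ∀ x : I3 N → ℂ, hat x a 0 (N - 1 - a) =
      x (⟨a, by omega⟩, (⟨0, hN⟩, ⟨N - 1 - a, by omega⟩)) := fun x =>
    hat_of x (⟨a, by omega⟩, (⟨0, hN⟩, ⟨N - 1 - a, by omega⟩))
  unfold tt
  rw [e, e, Pool.Agent.W715.VC.on23_mulVec, Pi.smul_apply, smul_eq_mul]
  congr 1
  by_cases ha0 : a = 0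
  · subst ha0
    rw [sum_eq_single ((⟨N - 1, by omega⟩, ⟨0, hN⟩) : Fin N × Fin N)]
    · have e1 : PP N (⟨0, hN⟩, ⟨N - 1 - 0, by omega⟩) (⟨N - 1, by omega⟩, ⟨0, hN⟩) =
          rt N ^ (-((N : ℤ) - 1) * (1 + ((N - 1 : ℕ) : ℤ))) :=
        P_zero_val (adm N) rfl rfl rfl
      have e2 : psi N (⟨0, by omega⟩, (⟨N - 1, by omega⟩, ⟨0, hN⟩)) = kap N (rt N) (N - 1) := by
        unfold psi cup
        simp
      have e3 : psi N (⟨0, by omega⟩, (⟨0, hN⟩, ⟨N - 1 - 0, by omega⟩)) = 1 := by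
        unfold psi cup
        simp [kap_zero hN]
      rw [e1, e2, e3, mul_one]
      congr 2
      have h3 : ((N - 1 : ℕ) : ℤ) = (N : ℤ) - 1 := by omega
      rw [h3]
      ring
    · intro q _ hq
      by_contra h2
      obtain ⟨h3, h4⟩ := P_row_zero (v := rt N) (p := (⟨0, hN⟩, ⟨N - 1 - 0, by omega⟩)) rfl
        (left_ne_zero_of_mul h2)
      exact hq (Prod.ext h3 (Fin.ext h4))
    · intro h2
      exact absurd (mem_univ _) h2
  · have e4 : ∀ q : Fin N × Fin N, psi N (⟨a, by omega⟩, q) = 0 := by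
      intro q
      unfold psi
      rw [if_neg]
      exact ha0
    simp only [e4, mul_zero, sum_const_zero]

lemma Dl_psi (hN : 0 < N) : Dl N *ᵥ psi N =
    ((rt N ^ (-((N : ℤ) - 1) * N) * kap N (rt N) (N - 1)) *
      rt N ^ (-((N : ℤ) - 1) * ((N : ℤ) + 1))) • phi N := by
  rw [Dl, YB3, ← Matrix.mulVec_mulVec, P23_psi hN, Matrix.mulVec_smul, ← Matrix.mulVec_mulVec,
    P23_P12_psi hN, smul_smul]

lemma Jc_Dl (hN : 0 < N) : ∃ κ : ℂ, ‖κ‖ = 1 ∧ Jc (psi N) = κ • (Dl N *ᵥ psi N) := by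
  set c1 : ℂ := (-1) ^ (N - 1) * rt N ^ ((N : ℤ) - 1 - ((N : ℤ) - 1) ^ 2) with h1
  set c2 : ℂ := (rt N ^ (-((N : ℤ) - 1) * N) * kap N (rt N) (N - 1)) *
      rt N ^ (-((N : ℤ) - 1) * ((N : ℤ) + 1)) with h2
  have n1 : ‖c1‖ = 1 := by
    rw [h1, norm_mul, norm_rt_zpow, norm_pow, norm_neg, norm_one, one_pow, one_mul]
  have n2 : ‖c2‖ = 1 := by
    rw [h2, norm_mul, norm_mul, norm_rt_zpow, norm_rt_zpow, kap_norm hN (by omega)]
    norm_num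
  have n3 : c2 ≠ 0 := by
    intro h
    rw [h, norm_zero] at n2
    exact zero_ne_one n2
  refine ⟨c1 / c2, by rw [norm_div, n1, n2, div_one], ?_⟩
  rw [Jc_psi hN, Dl_psi hN, smul_smul, ← h1, ← h2, div_mul_cancel₀ _ n3]

lemma Hf_Dl (hN : 0 < N) (x y : I3 N → ℂ) : Hf (Dl N *ᵥ x) (Dl N *ᵥ y) = Hf x y := by
  have e : Dl N = rep3 N [((0 : ℕ), true), (1, true), (0, true)] := by
    simp [rep3, g3, Dl, mul_assoc]
  have hu : ∀ l ∈ ([((0 : ℕ), true), (1, true), (0, true)] : List (ℕ × Bool)), l.1 < 2 := by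
    intro l hl
    simp only [List.mem_cons, List.not_mem_nil, or_false] at hl
    rcases hl with rfl | rfl | rfl <;> norm_num
  have e2 : hadj (Dl N) = on23 (QQ N) * (on12 (QQ N) * on23 (QQ N)) := by
    rw [e, hadj_rep3 hN hu]
    simp [rep3, g3, dual, dl]
  have e3 : hadj (Dl N) * Dl N = 1 := by
    have h23 : on23 (QQ N) * on23 (PP N) = (1 : M3 N) := by rw [on23_mul, QQ_PP, on23_one]
    have h12 : on12 (QQ N) * on12 (PP N) = (1 : M3 N) := by rw [on12_mul, QQ_PP, on12_one]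
    rw [e2, Dl, YB3]
    calc on23 (QQ N) * (on12 (QQ N) * on23 (QQ N)) *
          (on23 (PP N) * on12 (PP N) * on23 (PP N)) =
        on23 (QQ N) * (on12 (QQ N) * (on23 (QQ N) * on23 (PP N)) * on12 (PP N)) *
          on23 (PP N) := by noncomm_ring
      _ = 1 := by rw [h23, mul_one, h12, mul_one, h23]
  rw [Hf_adj, Matrix.mulVec_mulVec, e3, Matrix.one_mulVec]

/-- the mirror image of a letter -/
def ng (l : ℕ × Bool) : ℕ × Bool := (l.1, !l.2)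

lemma g3_dl {l : ℕ × Bool} (hl : l.1 < 2) : g3 N (dl l) * Dl N = Dl N * g3 N (ng l) := by
  obtain ⟨k, b⟩ := l
  simp only at hl
  have hk : k = 0 ∨ k = 1 := by omega
  rcases hk with rfl | rfl <;> cases b
  · simp [g3, dl, ng, Dl_P12]
  · simp [g3, dl, ng, Dl_Q12]
  · simp [g3, dl, ng, Dl_P23]
  · simp [g3, dl, ng, Dl_Q23]

lemma rep3_dl {w : List (ℕ × Bool)} (hw : ∀ l ∈ w, l.1 < 2) :
    rep3 N (w.map dl) * Dl N = Dl N * rep3 N (w.map ng) := by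
  induction w with
  | nil => simp [rep3_nil]
  | cons l w ih =>
    rw [List.map_cons, List.map_cons, rep3_cons, rep3_cons, mul_assoc,
      ih (fun l hl => hw l (List.mem_cons_of_mem _ hl)), ← mul_assoc,
      g3_dl (hw l List.mem_cons_self), mul_assoc]

/-- **the mirror image**: the invariant of the mirror image is the complex conjugate -/
theorem mirror (hN : 0 < N) {w : List (ℕ × Bool)} (hw : ∀ l ∈ w, l.1 < 2) :
    kv N hN (w.map ng) = (starRingEnd ℂ) (kv N hN w) := by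
  obtain ⟨κ, hκ, h1⟩ := Jc_Dl hN
  have h2 : (starRingEnd ℂ) κ * κ = 1 := by
    rw [Complex.conj_mul', hκ]; simp
  rw [kv_hf, kv_hf, Hf_conj]
  symm
  rw [← Hf_Jc (psi N) (rep3 N w *ᵥ psi N), Jc_rep3 hw, h1, Matrix.mulVec_smul, Hf_smul_left,
    Hf_smul_right, ← mul_assoc, h2, one_mul, Matrix.mulVec_mulVec, rep3_dl hw,
    ← Matrix.mulVec_mulVec, Hf_Dl hN]

end Pool.Agent.V1199.TB
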