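import Pool.Agent.V1150.RP.G
import Pool.Agent.V1199.TB.A
import Pool.Agent.V1199.TB.B

/-!
Lower bounds for the growth of the Kashaev invariants of the two-bridge links
`C(a, b, …, b, a)`, for all integers `a`, `b`.
-/

set_option autoImplicit false

namespace Pool.Agent.V1199.TB

open Matrix Finset Filter Topology Pool.Agent.H550R3.Jones Pool.Agent.W715.VC
open Pool.Agent.V1150.RP
open Pool.Agent.W719.BX (uA)
open scoped Kronecker

variable {N : ℕ}

/-- the syllable `s_{k+1}^m` -/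
def sy (k : ℕ) (m : ℤ) : List (ℕ × Bool) := List.replicate m.natAbs (k, decide (0 ≤ m))

lemma sy_lt {k : ℕ} (hk : k < 2) (m : ℤ) : ∀ l ∈ sy k m, l.1 < 2 := by
  intro l hl
  unfold sy at hl
  rw [List.mem_replicate] at hl
  rw [hl.2]
  exact hk

/-- a crossing as a unit -/
noncomputable def gu (N k : ℕ) : (M3 N)ˣ :=
  ⟨g3 N (k, true), g3 N (k, false), g3_inv k true, g3_inv k false⟩

lemma rep3_replicate (n : ℕ) (l : ℕ × Bool) : rep3 N (List.replicate n l) = g3 N l ^ n := by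
  unfold rep3
  rw [List.map_replicate, List.prod_replicate]

lemma rep3_sy (k : ℕ) (m : ℤ) : rep3 N (sy k m) = ((gu N k ^ m : (M3 N)ˣ) : M3 N) := by
  unfold sy
  rw [rep3_replicate]
  rcases le_or_gt 0 m with h | h
  · lift m to ℕ using h
    rw [zpow_natCast, Units.val_pow_eq_pow_val, Int.natAbs_natCast,
      decide_eq_true (by omega : (0 : ℤ) ≤ m)]
    rfl
  · obtain ⟨n, rfl⟩ : ∃ n : ℕ, m = -(n : ℤ) := ⟨m.natAbs, by omega⟩
    rw [_root_.zpow_neg, zpow_natCast, ← inv_pow, Units.val_pow_eq_pow_val, Int.natAbs_neg,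
      Int.natAbs_natCast, decide_eq_false (by omega : ¬ (0 : ℤ) ≤ -(n : ℤ))]
    rfl

lemma rep3_sy_add (k : ℕ) (m m' : ℤ) :
    rep3 N (sy k m) * rep3 N (sy k m') = rep3 N (sy k (m + m')) := by
  rw [rep3_sy, rep3_sy, rep3_sy, _root_.zpow_add, Units.val_mul]

lemma dual_sy (m : ℤ) : dual (sy 0 m) = sy 1 (-m) := by
  unfold dual sy
  rw [List.map_replicate, List.reverse_replicate, Int.natAbs_neg]
  rcases lt_trichotomy m 0 with h | h | h
  · rw [decide_eq_false (by omega : ¬ (0 : ℤ) ≤ m), decide_eq_true (by omega : (0 : ℤ) ≤ -m)]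
    rfl
  · subst h
    rfl
  · rw [decide_eq_true (by omega : (0 : ℤ) ≤ m), decide_eq_false (by omega : ¬ (0 : ℤ) ≤ -m)]
    rfl

lemma kn_congr {w w' : List (ℕ × Bool)} (h : ∀ N, 0 < N → rep3 N w = rep3 N w') :
    kn w = kn w' := by
  funext N
  by_cases hN : 0 < N
  · rw [kn_lt hN, kn_lt hN, kv_hf, kv_hf, h N hN]
  · unfold kn
    rw [dif_neg hN, dif_neg hN]

lemma kn_mirror {w : List (ℕ × Bool)} (hw : ∀ l ∈ w, l.1 < 2) : kn (w.map ng) = kn w := by
  funext N
  by_cases hN : 0 < N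
  · rw [kn_lt hN, kn_lt hN, mirror hN hw, RCLike.norm_conj]
  · unfold kn
    rw [dif_neg hN, dif_neg hN]

lemma pow_shift {M : Type} [Monoid M] (x y : M) (n : ℕ) :
    (x * y) ^ (n + 1) = x * ((y * x) ^ n * y) := by
  induction n with
  | zero => simp
  | succ n ih => rw [pow_succ', ih, pow_succ' (y * x)]; simp only [mul_assoc]

/-- the word of `C(a, b, …, b, a)` with `2 n` entries `b` -/
def cz (a b : ℤ) (n : ℕ) : List (ℕ × Bool) :=
  sy 1 (-a) ++ (wpow (sy 0 b ++ sy 1 (-b)) n ++ sy 0 a)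

lemma rep_zw (b c : ℤ) (n : ℕ) :
    rep3 N (zw (sy 0 c) (sy 0 b) (n + 1)) = rep3 N (cz (c + b) b n) := by
  unfold zw cz
  rw [dual_sy, dual_sy, rep3_append, rep3_append, rep3_wpow, rep3_append, pow_shift, rep3_append,
    rep3_append, rep3_wpow, rep3_append]
  have e1 : rep3 N (sy 1 (-(c + b))) = rep3 N (sy 1 (-c)) * rep3 N (sy 1 (-b)) := by
    rw [rep3_sy_add]
    congr 2
    ring
  have e2 : rep3 N (sy 0 (c + b)) = rep3 N (sy 0 b) * rep3 N (sy 0 c) := by
    rw [rep3_sy_add, add_comm]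
  rw [e1, e2]
  simp only [mul_assoc]

lemma kn_self (c : ℤ) : kn (dual (sy 0 c) ++ sy 0 c) =
    kn (dual (uA c.natAbs) ++ uA c.natAbs) := by
  rcases le_or_gt 0 c with h | h
  · have e : sy 0 c = uA c.natAbs := by
      unfold sy
      rw [decide_eq_true h]
      rfl
    rw [e]
  · have e : sy 0 c = (uA c.natAbs).map ng := by
      unfold sy
      rw [decide_eq_false (by omega : ¬ (0 : ℤ) ≤ c)]
      have e2 : uA c.natAbs = List.replicate c.natAbs (0, true) := rfl
      rw [e2, List.map_replicate]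
      rfl
    have e3 : dual ((uA c.natAbs).map ng) = (dual (uA c.natAbs)).map ng := by
      unfold dual
      rw [List.map_reverse, List.map_map, List.map_map]
      rfl
    rw [e, e3, ← List.map_append]
    refine kn_mirror ?_
    intro l hl
    rcases List.mem_append.1 hl with h1 | h1
    · exact dual_lt l h1
    · exact uA_lt _ l h1

/-! ### amplification -/

lemma word_append {u w : List (ℕ × Bool)} (hu : ∀ l ∈ u, l.1 < 2) (hw : ∀ l ∈ w, l.1 < 2) :
    ∀ l ∈ u ++ w, l.1 < 2 := by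
  intro l hl
  rcases List.mem_append.1 hl with h | h
  · exact hu l h
  · exact hw l h

lemma dual_append' (u w : List (ℕ × Bool)) : dual (u ++ w) = dual w ++ dual u := by
  unfold dual
  rw [List.map_append, List.reverse_append]

/-- the word `bar q (q z^{-1} bar (z^{-1}) bar q)^n q` -/
def amp (q z : List (ℕ × Bool)) (n : ℕ) : List (ℕ × Bool) :=
  dual q ++ (wpow (q ++ (winv z ++ (dual (winv z) ++ dual q))) n ++ q)

lemma dual_cancel (hN : 0 < N) {z : List (ℕ × Bool)} (hz : ∀ l ∈ z, l.1 < 2) :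
    rep3 N (dual z) * rep3 N (dual (winv z)) = 1 := by
  have h0 : ∀ l ∈ ([] : List (ℕ × Bool)), l.1 < 2 := fun l hl => absurd hl List.not_mem_nil
  rw [← rep3_append, ← dual_append', ← hadj_rep3 hN (word_append (winv_lt hz) hz), rep3_append,
    rep3_winv, ← rep3_nil, hadj_rep3 hN h0]
  rfl

lemma rep_amp (hN : 0 < N) (q : List (ℕ × Bool)) {z : List (ℕ × Bool)} (hz : ∀ l ∈ z, l.1 < 2)
    (n : ℕ) : rep3 N (zw z (q ++ winv z) (n + 1)) = rep3 N (amp q z n) := by
  unfold zw amp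
  rw [dual_append']
  simp only [rep3_append, rep3_wpow]
  rw [pow_shift]
  have e1 : rep3 N (dual z) * (rep3 N (dual (winv z)) * rep3 N (dual q)) = rep3 N (dual q) := by
    rw [← mul_assoc, dual_cancel hN hz, one_mul]
  have e2 : rep3 N q * rep3 N (winv z) * rep3 N z = rep3 N q := by
    rw [mul_assoc, rep3_winv, mul_one]
  calc rep3 N (dual z) * (rep3 N (dual (winv z)) * rep3 N (dual q) *
        ((rep3 N q * rep3 N (winv z) * (rep3 N (dual (winv z)) * rep3 N (dual q))) ^ n *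
          (rep3 N q * rep3 N (winv z))) * rep3 N z) =
      (rep3 N (dual z) * (rep3 N (dual (winv z)) * rep3 N (dual q))) *
        ((rep3 N q * rep3 N (winv z) * (rep3 N (dual (winv z)) * rep3 N (dual q))) ^ n *
          (rep3 N q * rep3 N (winv z) * rep3 N z)) := by
        simp only [mul_assoc]
    _ = _ := by rw [e1, e2]; simp only [mul_assoc]

lemma kn_amp (q : List (ℕ × Bool)) {z : List (ℕ × Bool)} (hz : ∀ l ∈ z, l.1 < 2) (n : ℕ) :
    kn (amp q z n) = kn (zw z (q ++ winv z) (n + 1)) :=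
  kn_congr fun _ hN => (rep_amp hN q hz n).symm

lemma amp_zero (q z : List (ℕ × Bool)) : amp q z 0 = dual q ++ q := by
  unfold amp
  rw [wpow_zero', List.nil_append]

lemma zw_zero' (z p : List (ℕ × Bool)) : zw z p 0 = dual z ++ z := by
  unfold zw
  rw [wpow_zero', List.nil_append]

/-- **amplification** -/
theorem amplify {q z : List (ℕ × Bool)} (hq : ∀ l ∈ q, l.1 < 2) (hz : ∀ l ∈ z, l.1 < 2) (n : ℕ)
    {L U : ℝ} (hL : Lw (kn (dual q ++ q)) L) (hU : Gr (kn (dual z ++ z)) U) :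
    Lw (kn (amp q z n)) ((n + 1) * L - n * U) := by
  rw [kn_amp q hz]
  refine lower_base hz (word_append hq (winv_lt hz)) ?_ ?_ n
  · rw [zw_zero']
    exact hU
  · rw [← kn_amp q hz 0, amp_zero]
    exact hL

/-! ### the lower bounds -/

/-- **lower bounds for the growth** -/
theorem explicit_lower : ∃ W : ℕ → ℝ, W 0 = 0 ∧ W 1 = 0 ∧ W 2 = 4 * GapVol.lob (Real.pi / 6) ∧
    W 3 = 8 * GapVol.lob (Real.pi / 6) ∧
    (∀ A, 4 ≤ A → IsGreatest {x : ℝ | ∃ w, Pool.Agent.W709.VC.IsAngle A A w ∧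
      Pool.Agent.W709.VC.volw A A w = x} (W A)) ∧
    (∀ c : ℤ, Gr (kn (dual (sy 0 c) ++ sy 0 c)) (W c.natAbs)) ∧
    (∀ c : ℤ, 2 ≤ c.natAbs → Lw (kn (dual (sy 0 c) ++ sy 0 c)) (W c.natAbs)) ∧
    ∀ (a b : ℤ) (n : ℕ), 2 ≤ a.natAbs →
      Lw (kn (cz a b n)) ((n + 1) * W a.natAbs - n * W (a - b).natAbs) := by
  choose W hW0 hW2 hW3 hW4 hWt hWg using exW2
  have key : ∀ n : ℕ, ∀ V : ℕ → ℝ, V = (fun n => if n = 1 then 0 else W n) → n ≠ 1 → V n = W n := by
    intro n V hV hn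
    rw [hV]
    simp only
    rw [if_neg hn]
  obtain ⟨V, hV⟩ : ∃ V : ℕ → ℝ, V = (fun n => if n = 1 then 0 else W n) := ⟨_, rfl⟩
  have hV1 : V 1 = 0 := by rw [hV]; simp
  have up : ∀ c : ℤ, Gr (kn (dual (sy 0 c) ++ sy 0 c)) (V c.natAbs) := by
    intro c
    rw [kn_self]
    by_cases h : c.natAbs = 1
    · rw [h, hV1]
      exact gr_one
    · rw [key _ V hV h]
      exact hWg c.natAbs (by omega)
  have low : ∀ c : ℤ, 2 ≤ c.natAbs → Lw (kn (dual (sy 0 c) ++ sy 0 c)) (V c.natAbs) := by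
    intro c hc
    rw [kn_self, key _ V hV (by omega)]
    exact Lw.of_tendsto (uA_lt _) (hWt _ hc)
  refine ⟨V, ?_, hV1, ?_, ?_, ?_, up, low, ?_⟩
  · rw [key 0 V hV (by norm_num)]; exact hW0 0 rfl
  · rw [key 2 V hV (by norm_num)]; exact hW2 2 rfl
  · rw [key 3 V hV (by norm_num)]; exact hW3 3 rfl
  · intro A hA
    rw [key A V hV (by omega)]
    exact hW4 A hA
  · intro a b n ha
    have e : kn (cz a b n) = kn (zw (sy 0 (a - b)) (sy 0 b) (n + 1)) := by
      refine kn_congr fun N _ => ?_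
      rw [rep_zw, sub_add_cancel]
    rw [e]
    refine lower_base (sy_lt (by norm_num) _) (sy_lt (by norm_num) _) ?_ ?_ n
    · rw [zw_zero']
      exact up _
    · have e2 : kn (zw (sy 0 (a - b)) (sy 0 b) 1) = kn (dual (sy 0 a) ++ sy 0 a) := by
        refine kn_congr fun N _ => ?_
        rw [rep_zw b (a - b) 0, sub_add_cancel]
        unfold cz
        rw [wpow_zero', List.nil_append, dual_sy]
      rw [e2]
      exact low _ ha

end Pool.Agent.V1199.TB
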