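import Pool.Agent.V1199.TB.C

/-!
The comparison of two-bridge links with closed 3-braids with axis, and lower bounds for the growth
of the latter.
-/

set_option autoImplicit false

namespace Pool.Agent.V1199.TB

open Matrix Finset Filter Topology Pool.Agent.H550R3.Jones Pool.Agent.W715.VC
open Pool.Agent.V1150.RP
open Pool.Agent.W719.BX (uA)
open scoped Kronecker

variable {N : ℕ}

lemma hadj_one' (hN : 0 < N) : hadj (1 : M3 N) = 1 := by
  have h0 : ∀ l ∈ ([] : List (ℕ × Bool)), l.1 < 2 := fun l hl => absurd hl List.not_mem_nil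
  have h := hadj_rep3 hN h0
  rw [rep3_nil] at h
  rw [h]
  rfl

lemma hadj_pow' (hN : 0 < N) {T : M3 N} (hT : hadj T = T) (j : ℕ) : hadj (T ^ j) = T ^ j := by
  induction j with
  | zero => rw [pow_zero, hadj_one' hN]
  | succ j ih => rw [pow_succ, hadj_mul, hT, ih, ← pow_succ', pow_succ]

lemma wpow_lt {w : List (ℕ × Bool)} (hw : ∀ l ∈ w, l.1 < 2) (j : ℕ) : ∀ l ∈ wpow w j, l.1 < 2 := by
  intro l hl
  unfold wpow at hl
  rw [List.mem_flatten] at hl
  obtain ⟨s, hs, hl⟩ := hl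
  rw [List.mem_replicate] at hs
  rw [hs.2] at hl
  exact hw l hl

/-- the chain words are palindromic -/
theorem exists_root (hN : 0 < N) {z p : List (ℕ × Bool)} (hz : ∀ l ∈ z, l.1 < 2)
    (hp : ∀ l ∈ p, l.1 < 2) (n : ℕ) : ∃ u : List (ℕ × Bool), (∀ l ∈ u, l.1 < 2) ∧
      rep3 N (dual u ++ u) = rep3 N (zw z p n) := by
  have hpp : ∀ l ∈ dual p ++ p, l.1 < 2 := word_append dual_lt hp
  set T := rep3 N (dual p ++ p) with hT
  have hTe : T = hadj (rep3 N p) * rep3 N p := by rw [hT, rep3_append, hadj_rep3 hN hp]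
  have hTadj : hadj T = T := by
    rw [hTe, hadj_mul]
    congr 1
    ext p q
    simp only [hadj, Complex.conj_conj, rv_rv]
  have e0 : rep3 N (zw z p n) = hadj (rep3 N z) * (T ^ n * rep3 N z) := by
    unfold zw
    rw [rep3_append, rep3_append, rep3_wpow, hadj_rep3 hN hz]
  rcases Nat.even_or_odd n with ⟨j, hj⟩ | ⟨j, hj⟩
  · have hu : ∀ l ∈ wpow (dual p ++ p) j ++ z, l.1 < 2 := word_append (wpow_lt hpp j) hz
    refine ⟨wpow (dual p ++ p) j ++ z, hu, ?_⟩
    have e1 : rep3 N (wpow (dual p ++ p) j ++ z) = T ^ j * rep3 N z := by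
      rw [rep3_append, rep3_wpow]
    rw [rep3_append, ← hadj_rep3 hN hu, e1, hadj_mul, hadj_pow' hN hTadj, e0, hj, pow_add]
    simp only [mul_assoc]
  · have hu : ∀ l ∈ p ++ (wpow (dual p ++ p) j ++ z), l.1 < 2 :=
      word_append hp (word_append (wpow_lt hpp j) hz)
    refine ⟨p ++ (wpow (dual p ++ p) j ++ z), hu, ?_⟩
    have e1 : rep3 N (p ++ (wpow (dual p ++ p) j ++ z)) = rep3 N p * (T ^ j * rep3 N z) := by
      rw [rep3_append, rep3_append, rep3_wpow]
    rw [rep3_append, ← hadj_rep3 hN hu, e1, hadj_mul, hadj_mul, hadj_pow' hN hTadj, e0]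
    have e2 : T ^ n = T ^ j * (hadj (rep3 N p) * rep3 N p) * T ^ j := by
      rw [← hTe, ← pow_succ, ← pow_add]
      congr 1
      omega
    rw [e2]
    simp only [mul_assoc]

/-- the invariant of a two-bridge link is bounded by that of the closed braid with axis -/
theorem axis_ge (hN : 0 < N) {z p : List (ℕ × Bool)} (hz : ∀ l ∈ z, l.1 < 2)
    (hp : ∀ l ∈ p, l.1 < 2) (n : ℕ) :
    ‖kv N hN (zw z p n)‖ ≤ ‖(rep3 N (zw z p n)).trace‖ + (N : ℝ) ^ 3 := by
  obtain ⟨u, hu, h⟩ := exists_root hN hz hp n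
  have h1 := word_bound hN hu (psi_InK hN)
  rw [← kv_dual hN hu, Hf_psi hN, norm_one, mul_one] at h1
  have h2 : (rep3 N (u ++ dual u)).trace = (rep3 N (dual u ++ u)).trace := by
    rw [rep3_append, rep3_append, Matrix.trace_mul_comm]
  have h3 : kv N hN (dual u ++ u) = kv N hN (zw z p n) := by rw [kv_hf, kv_hf, h]
  rw [h2, h, h3] at h1
  exact h1

/-- positivity -/
theorem chain_pos (hN : 0 < N) {z p : List (ℕ × Bool)} (hz : ∀ l ∈ z, l.1 < 2)
    (hp : ∀ l ∈ p, l.1 < 2) (n : ℕ) : ∃ r : ℝ, 0 < r ∧ kv N hN (zw z p n) = r := by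
  obtain ⟨u, hu, h⟩ := exists_root hN hz hp n
  have h3 : kv N hN (dual u ++ u) = kv N hN (zw z p n) := by rw [kv_hf, kv_hf, h]
  rw [← h3]
  exact kv_self_pos hN hu

/-- the absolute value of the invariant of the closed braid with axis -/
noncomputable def tn (w : List (ℕ × Bool)) (N : ℕ) : ℝ := ‖(rep3 N w).trace‖

lemma Lw.sub_cube {x y : ℕ → ℝ} {L : ℝ} (h : Lw x L) (hL : 0 < L)
    (hxy : ∀ᶠ N : ℕ in atTop, x N ≤ y N + (N : ℝ) ^ 3) : Lw y L := by
  intro ε hε
  have hc : 0 < L / (2 * Real.pi) := by positivity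
  set c : ℝ := L / (2 * Real.pi) with hcdef
  have hm : 0 < min ε c := lt_min hε hc
  have hm1 : min ε c ≤ ε := min_le_left _ _
  have hm2 : min ε c ≤ c := min_le_right _ _
  set m : ℝ := min ε c with hmdef
  filter_upwards [h (m / 4) (by positivity), hxy, Gr.add_cube Gr.one le_rfl (m / 4) (by positivity),
    eventually_gt_atTop 0] with N h1 h2 h3 hN
  have hNR : (1 : ℝ) ≤ N := by exact_mod_cast hN
  rw [zero_div, zero_add] at h3
  have g1 : Real.exp ((c - ε) * N) ≤ Real.exp ((c - m) * N) :=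
    Real.exp_le_exp.2 (mul_le_mul_of_nonneg_right (by linarith) (by linarith))
  have g2 : (1 : ℝ) ≤ Real.exp ((c - m) * N) :=
    Real.one_le_exp (mul_nonneg (by linarith) (by linarith))
  have g3 : (2 : ℝ) ≤ Real.exp (m / 4 * N) := by
    have : (1 : ℝ) ≤ (N : ℝ) ^ 3 := one_le_pow₀ hNR
    linarith
  have g4 : Real.exp ((c - m / 4) * N) =
      Real.exp ((c - m) * N) * (Real.exp (m / 4 * N) * Real.exp (m / 4 * N) *
        Real.exp (m / 4 * N)) := by
    rw [← Real.exp_add, ← Real.exp_add, ← Real.exp_add]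
    congr 1
    ring
  set A : ℝ := Real.exp ((c - m) * N) with hA
  set B : ℝ := Real.exp (m / 4 * N) with hB
  have g5 : A + B ≤ A * (B * B * B) := by
    have b1 : B ≤ A * B := le_mul_of_one_le_left (by linarith) g2
    have b2 : A ≤ A * B := le_mul_of_one_le_right (by linarith) (by linarith)
    have b3 : A * B * 2 ≤ A * B * (B * B) :=
      mul_le_mul_of_nonneg_left (by nlinarith) (by positivity)
    nlinarith
  have g6 : (N : ℝ) ^ 3 ≤ B := by linarith
  rw [g4] at h1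
  linarith

/-- **lower bounds for the growth of closed 3-braids with axis** -/
theorem axis_lower {z p : List (ℕ × Bool)} (hz : ∀ l ∈ z, l.1 < 2) (hp : ∀ l ∈ p, l.1 < 2)
    {n : ℕ} {L : ℝ} (hL : 0 < L) (h : Lw (kn (zw z p n)) L) : Lw (tn (zw z p n)) L := by
  refine h.sub_cube hL ?_
  filter_upwards [eventually_gt_atTop 0] with N hN
  rw [kn_lt hN]
  exact axis_ge hN hz hp n

lemma tn_congr {w w' : List (ℕ × Bool)} (h : ∀ N, 0 < N → rep3 N w = rep3 N w') {L : ℝ}
    (hw : Lw (tn w') L) : Lw (tn w) L := by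
  intro ε hε
  filter_upwards [hw ε hε, eventually_gt_atTop 0] with N h1 hN
  unfold tn at h1 ⊢
  rw [h N hN]
  exact h1

theorem axis_amp {q z : List (ℕ × Bool)} (hq : ∀ l ∈ q, l.1 < 2) (hz : ∀ l ∈ z, l.1 < 2) (n : ℕ)
    {L U : ℝ} (hpos : 0 < (n + 1) * L - n * U) (hL : Lw (kn (dual q ++ q)) L)
    (hU : Gr (kn (dual z ++ z)) U) : Lw (tn (amp q z n)) ((n + 1) * L - n * U) := by
  have h := amplify hq hz n hL hU
  rw [kn_amp q hz] at h
  exact tn_congr (fun N hN => (rep_amp hN q hz n).symm)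
    (axis_lower hz (word_append hq (winv_lt hz)) hpos h)

theorem axis_cz {a b : ℤ} {n : ℕ} {L : ℝ} (hL : 0 < L) (h : Lw (kn (cz a b n)) L) :
    Lw (tn (cz a b n)) L := by
  have e : kn (cz a b n) = kn (zw (sy 0 (a - b)) (sy 0 b) (n + 1)) := by
    refine kn_congr fun N _ => ?_
    rw [rep_zw, sub_add_cancel]
  rw [e] at h
  refine tn_congr (fun N _ => ?_)
    (axis_lower (sy_lt (by norm_num) _) (sy_lt (by norm_num) _) hL h)
  rw [rep_zw, sub_add_cancel]

end Pool.Agent.V1199.TB
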