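import Mathlib
import Pool.Agent.V1199.TB.D

/-!
Consequences of growth bounds for the complexified conjectures.
-/

set_option autoImplicit false

namespace Pool.Agent.V1199.TB

open Matrix Finset Filter Topology Pool.Agent.H550R3.Jones Pool.Agent.W715.VC
open Pool.Agent.V1150.RP
open scoped Kronecker

/-- `x N` grows at least like `exp (L N / (2 π))` along the numbers `N` in `s` -/
def LwS (s : Set ℕ) (x : ℕ → ℝ) (L : ℝ) : Prop :=
  ∀ ε : ℝ, 0 < ε → ∀ᶠ N : ℕ in atTop, N ∈ s → Real.exp ((L / (2 * Real.pi) - ε) * N) ≤ x N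

/-- `x N` grows at most like `exp (U N / (2 π))` along the numbers `N` in `s` -/
def GrS (s : Set ℕ) (x : ℕ → ℝ) (U : ℝ) : Prop :=
  ∀ ε : ℝ, 0 < ε → ∀ᶠ N : ℕ in atTop, N ∈ s → x N ≤ Real.exp ((U / (2 * Real.pi) + ε) * N)

lemma Lw.toS {x : ℕ → ℝ} {L : ℝ} (h : Lw x L) (s : Set ℕ) : LwS s x L := fun ε hε =>
  (h ε hε).mono fun _ hN _ => hN

/-- the inequality for every `N` -/
theorem amp_ineq {N : ℕ} (hN : 0 < N) {q z : List (ℕ × Bool)} (hq : ∀ l ∈ q, l.1 < 2)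
    (hz : ∀ l ∈ z, l.1 < 2) (n : ℕ) :
    kn (dual q ++ q) N ^ (n + 1) ≤ kn (dual z ++ z) N ^ n * kn (amp q z n) N := by
  have h := convex_pow (a := fun k => kn (zw z (q ++ winv z) k) N) (fun k => kn_nonneg _ _)
    (fun k => by
      simp only [kn_lt hN]
      exact log_convex_base hN hz (word_append hq (winv_lt hz)) k) n
  rw [zw_zero', ← kn_amp q hz n] at h
  have e1 : zw z (q ++ winv z) 1 = zw z (q ++ winv z) (0 + 1) := rfl
  rw [e1, ← kn_amp q hz 0, amp_zero] at h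
  exact h

/-- amplification along a set of `N` -/
theorem amplifyS (s : Set ℕ) {q z : List (ℕ × Bool)} (hq : ∀ l ∈ q, l.1 < 2)
    (hz : ∀ l ∈ z, l.1 < 2) (n : ℕ) {L U : ℝ} (hL : LwS s (kn (dual q ++ q)) L)
    (hU : GrS s (kn (dual z ++ z)) U) : LwS s (kn (amp q z n)) ((n + 1) * L - n * U) := by
  intro ε hε
  have hd : 0 < ε / (2 * n + 1) := by positivity
  filter_upwards [hU _ hd, hL _ hd, eventually_gt_atTop 0] with N g0' g1' hN hs
  have g0 := g0' hs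
  have g1 := g1' hs
  have hNR : (0 : ℝ) < N := by exact_mod_cast hN
  set A : ℝ := (L / (2 * Real.pi) - ε / (2 * n + 1)) * N with hA
  set B : ℝ := (U / (2 * Real.pi) + ε / (2 * n + 1)) * N with hB
  have hc := amp_ineq hN hq hz n
  have h3 : Real.exp A ^ (n + 1) ≤ Real.exp B ^ n * kn (amp q z n) N := by
    calc Real.exp A ^ (n + 1) ≤ kn (dual q ++ q) N ^ (n + 1) :=
          pow_le_pow_left₀ (Real.exp_pos _).le g1 _
      _ ≤ kn (dual z ++ z) N ^ n * kn (amp q z n) N := hc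
      _ ≤ Real.exp B ^ n * kn (amp q z n) N :=
          mul_le_mul_of_nonneg_right (pow_le_pow_left₀ (kn_nonneg _ _) g0 _) (kn_nonneg _ _)
  rw [← Real.exp_nat_mul, ← Real.exp_nat_mul] at h3
  have h4 : Real.exp (((n + 1 : ℕ) : ℝ) * A - n * B) ≤ kn (amp q z n) N := by
    rw [Real.exp_sub, div_le_iff₀ (Real.exp_pos _)]
    rw [mul_comm (kn _ N)]
    exact h3
  refine le_trans (le_of_eq ?_) h4
  congr 1
  rw [hA, hB]
  push_cast
  have hn : (2 * (n : ℝ) + 1) ≠ 0 := by positivity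
  have hpi := Real.pi_ne_zero
  field_simp
  ring

theorem amp_pos {N : ℕ} (hN : 0 < N) {q z : List (ℕ × Bool)} (hq : ∀ l ∈ q, l.1 < 2)
    (hz : ∀ l ∈ z, l.1 < 2) (n : ℕ) : ∃ r : ℝ, 0 < r ∧ kv N hN (amp q z n) = r := by
  obtain ⟨r, hr, h⟩ := chain_pos hN hz (word_append hq (winv_lt hz)) (n + 1)
  refine ⟨r, hr, ?_⟩
  rw [← h, kv_hf, kv_hf, rep_amp hN q hz n]

theorem cz_pos {N : ℕ} (hN : 0 < N) (a b : ℤ) (n : ℕ) :
    ∃ r : ℝ, 0 < r ∧ kv N hN (cz a b n) = r := by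
  obtain ⟨r, hr, h⟩ := chain_pos hN (sy_lt (k := 0) (by norm_num) (a - b))
    (sy_lt (k := 0) (by norm_num) b) (n + 1)
  refine ⟨r, hr, ?_⟩
  rw [← h, kv_hf, kv_hf, rep_zw, sub_add_cancel]

/-- the lower bound as a bound for logarithms -/
lemma LwS.log {s : Set ℕ} {a : ℕ → ℝ} {L : ℝ} (h : LwS s a L) {ε : ℝ} (hε : 0 < ε) :
    ∀ᶠ N : ℕ in atTop, N ∈ s → (L - ε) / (2 * Real.pi) * N ≤ Real.log (a N) := by
  have hpi := Real.pi_pos
  filter_upwards [h (ε / (2 * Real.pi)) (by positivity)] with N hN' hs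
  have hN := hN' hs
  have h1 : 0 < a N := lt_of_lt_of_le (Real.exp_pos _) hN
  rw [← Real.le_log_iff_exp_le h1] at hN
  refine le_trans (le_of_eq ?_) hN
  ring

/-- along the odd numbers: ratios, frequently -/
theorem ratio_freq {a : ℕ → ℝ} {L : ℝ} (h : LwS {N | Odd N} a L) {ε : ℝ} (hε : 0 < ε) :
    ∃ᶠ m : ℕ in atTop, L - ε ≤ Real.pi *
      (Real.log (a (2 * m + 3)) - Real.log (a (2 * m + 1))) := by
  have hpi := Real.pi_pos
  intro hnot
  set δ : ℝ := ε / 3 with hδ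
  have hδ0 : 0 < δ := by rw [hδ]; linarith
  have h2 : ∀ᶠ m : ℕ in atTop, Real.pi *
      (Real.log (a (2 * m + 3)) - Real.log (a (2 * m + 1))) ≤ L - 3 * δ :=
    hnot.mono fun m hm => by
      rw [not_le] at hm
      rw [hδ]
      linarith
  obtain ⟨m0, hm0⟩ := eventually_atTop.1 h2
  have hup : ∀ m : ℕ, Real.pi * Real.log (a (2 * (m0 + m) + 1)) ≤
      Real.pi * Real.log (a (2 * m0 + 1)) + m * (L - 3 * δ) := by
    intro m
    induction m with
    | zero => simp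
    | succ m ih =>
      have h3 := hm0 (m0 + m) (by omega)
      have e : 2 * (m0 + (m + 1)) + 1 = 2 * (m0 + m) + 3 := by ring
      rw [e]
      push_cast
      linarith
  have hlow := h.log hδ0
  obtain ⟨N0, hN0⟩ := eventually_atTop.1 hlow
  set C : ℝ := Real.pi * Real.log (a (2 * m0 + 1)) with hC
  obtain ⟨M, hM⟩ := exists_nat_gt ((|C| + |L - δ| * (m0 + 1)) / δ)
  set m : ℕ := M + N0 with hm
  have h4 := hup m
  have h5 := hN0 (2 * (m0 + m) + 1) (by omega) ⟨m0 + m, rfl⟩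
  have h6 : Real.pi * ((L - δ) / (2 * Real.pi) * ((2 * (m0 + m) + 1 : ℕ) : ℝ)) ≤
      Real.pi * Real.log (a (2 * (m0 + m) + 1)) := mul_le_mul_of_nonneg_left h5 hpi.le
  have h7 : Real.pi * ((L - δ) / (2 * Real.pi) * ((2 * (m0 + m) + 1 : ℕ) : ℝ)) =
      (L - δ) * m + (L - δ) * (m0 + 1 / 2) := by
    push_cast
    field_simp
    ring
  rw [h7] at h6
  have h9 : 2 * δ * m ≤ C - (L - δ) * (m0 + 1 / 2) := by nlinarith
  have h10 : -((L - δ) * ((m0 : ℝ) + 1 / 2)) ≤ |L - δ| * (m0 + 1) := by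
    have g1 := neg_abs_le (L - δ)
    have g2 : (0 : ℝ) ≤ m0 := Nat.cast_nonneg _
    have g3 := abs_nonneg (L - δ)
    nlinarith
  have h11 : C ≤ |C| := le_abs_self C
  have h12 : |C| + |L - δ| * (m0 + 1) < δ * M := by
    rw [div_lt_iff₀ hδ0] at hM
    linarith
  have h13 : (M : ℝ) ≤ m := by rw [hm]; push_cast; linarith [(Nat.cast_nonneg N0 : (0 : ℝ) ≤ N0)]
  have h14 : δ * M ≤ δ * m := mul_le_mul_of_nonneg_left h13 hδ0.le
  have h15 : (0 : ℝ) ≤ m := Nat.cast_nonneg _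
  nlinarith

lemma log_ratio {a : ℕ → ℝ} (ha : ∀ N, 1 ≤ N → 0 < a N) (m : ℕ) :
    Complex.log ((a (2 * m + 3) : ℂ) / (a (2 * m + 1) : ℂ)) =
      ((Real.log (a (2 * m + 3)) - Real.log (a (2 * m + 1)) : ℝ) : ℂ) := by
  have h3 := ha (2 * m + 3) (by omega)
  have h1 := ha (2 * m + 1) (by omega)
  rw [← Complex.ofReal_div, ← Complex.ofReal_log (by positivity), Real.log_div h3.ne' h1.ne']

/-- along the odd numbers: ratios -/
theorem ratio_bound {a : ℕ → ℝ} (ha : ∀ N, 1 ≤ N → 0 < a N) {L : ℝ}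
    (h : LwS {N | Odd N} a L) {v : ℂ}
    {k : ℕ → ℤ} (hv : Tendsto (fun m : ℕ => (Real.pi : ℂ) *
      Complex.log ((a (2 * m + 3) : ℂ) / (a (2 * m + 1) : ℂ)) +
        Complex.I * Real.pi ^ 2 * (k m : ℂ)) atTop (𝓝 v)) :
    L ≤ v.re ∧ ∃ j : ℤ, v.im = Real.pi ^ 2 * j := by
  have hpi := Real.pi_pos
  have hre : Tendsto (fun m : ℕ => Real.pi *
      (Real.log (a (2 * m + 3)) - Real.log (a (2 * m + 1)))) atTop (𝓝 v.re) := by
    have h1 := (Complex.continuous_re.tendsto v).comp hv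
    refine h1.congr fun m => ?_
    simp only [Function.comp_apply]
    rw [log_ratio ha]
    rw [show (Real.pi : ℂ) * ((Real.log (a (2 * m + 3)) - Real.log (a (2 * m + 1)) : ℝ) : ℂ) +
      Complex.I * Real.pi ^ 2 * (k m : ℂ) =
      ((Real.pi * (Real.log (a (2 * m + 3)) - Real.log (a (2 * m + 1))) : ℝ) : ℂ) +
      ((Real.pi ^ 2 * (k m : ℝ) : ℝ) : ℂ) * Complex.I by push_cast; ring]
    rw [Complex.add_re, Complex.ofReal_re, Complex.re_ofReal_mul, Complex.I_re, mul_zero, add_zero]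
  have him : Tendsto (fun m : ℕ => Real.pi ^ 2 * (k m : ℝ)) atTop (𝓝 v.im) := by
    have h1 := (Complex.continuous_im.tendsto v).comp hv
    refine h1.congr fun m => ?_
    simp only [Function.comp_apply]
    rw [log_ratio ha]
    rw [show (Real.pi : ℂ) * ((Real.log (a (2 * m + 3)) - Real.log (a (2 * m + 1)) : ℝ) : ℂ) +
      Complex.I * Real.pi ^ 2 * (k m : ℂ) =
      ((Real.pi * (Real.log (a (2 * m + 3)) - Real.log (a (2 * m + 1))) : ℝ) : ℂ) +
      ((Real.pi ^ 2 * (k m : ℝ) : ℝ) : ℂ) * Complex.I by push_cast; ring]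
    rw [Complex.add_im, Complex.ofReal_im, Complex.im_ofReal_mul, Complex.I_im, mul_one, zero_add]
  constructor
  · refine le_of_forall_pos_le_add fun ε hε => ?_
    have h2 : ∀ᶠ m : ℕ in atTop, Real.pi *
        (Real.log (a (2 * m + 3)) - Real.log (a (2 * m + 1))) < v.re + ε / 2 :=
      hre.eventually (gt_mem_nhds (by linarith))
    obtain ⟨m, h3, h4⟩ := ((ratio_freq h (half_pos hε)).and_eventually h2).exists
    linarith
  · have h1 : Tendsto (fun m : ℕ => ((k m : ℤ) : ℝ)) atTop (𝓝 (v.im / Real.pi ^ 2)) := by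
      have h2 := him.div_const (Real.pi ^ 2)
      refine h2.congr fun m => ?_
      field_simp
    have h3 := Int.isClosedEmbedding_coe_real.isClosed_range.mem_of_tendsto h1
      (Eventually.of_forall fun m => Set.mem_range_self _)
    obtain ⟨j, hj⟩ := h3
    refine ⟨j, ?_⟩
    rw [hj]
    field_simp

/-- along the even numbers: logarithms -/
theorem even_bound {a : ℕ → ℝ} (ha : ∀ N, 1 ≤ N → 0 < a N) {L : ℝ}
    (h : LwS {N | Even N} a L) {v : ℂ}
    {l : ℕ → ℂ} (hl : ∀ m, 1 ≤ m → Complex.exp (l m) = (a (2 * m) : ℂ))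
    (hv : Tendsto (fun m : ℕ => 2 * (Real.pi : ℂ) / ((2 * m : ℕ) : ℂ) * l m) atTop (𝓝 v)) :
    L ≤ v.re := by
  have hpi := Real.pi_pos
  have hre := (Complex.continuous_re.tendsto v).comp hv
  refine le_of_forall_pos_le_add fun ε hε => ?_
  have h1 : ∀ᶠ m : ℕ in atTop, L - ε ≤ (2 * (Real.pi : ℂ) / ((2 * m : ℕ) : ℂ) * l m).re := by
    have h2 := h.log hε
    have h3 : Tendsto (fun m : ℕ => 2 * m) atTop atTop :=
      tendsto_atTop_mono (fun m => by simp only [id]; omega) tendsto_id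
    filter_upwards [h3.eventually h2, eventually_gt_atTop 0] with m hm' hm0
    have hm := hm' ⟨m, by ring⟩
    have hm1 : (0 : ℝ) < ((2 * m : ℕ) : ℝ) := by exact_mod_cast (by omega : 0 < 2 * m)
    have e1 : (l m).re = Real.log (a (2 * m)) := by
      have h4 := congrArg (fun z : ℂ => Real.log ‖z‖) (hl m hm0)
      simp only [Complex.norm_exp, Real.log_exp] at h4
      rw [h4, Complex.norm_real, Real.norm_of_nonneg (ha _ (by omega)).le]
    have e2 : (2 * (Real.pi : ℂ) / ((2 * m : ℕ) : ℂ) * l m).re =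
        2 * Real.pi / ((2 * m : ℕ) : ℝ) * (l m).re := by
      have : 2 * (Real.pi : ℂ) / ((2 * m : ℕ) : ℂ) = ((2 * Real.pi / ((2 * m : ℕ) : ℝ) : ℝ) : ℂ) := by
        push_cast; ring
      rw [this, Complex.re_ofReal_mul]
    rw [e2, e1]
    have h5 : 2 * Real.pi / ((2 * m : ℕ) : ℝ) * ((L - ε) / (2 * Real.pi) * ((2 * m : ℕ) : ℝ)) =
        L - ε := by
      field_simp
    rw [← h5]
    exact mul_le_mul_of_nonneg_left hm (by positivity)
  have h2 : L - ε ≤ v.re := ge_of_tendsto hre h1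
  linarith

/-- expansions -/
theorem expansion_bound {a : ℕ → ℝ} {L : ℝ} (h : Lw a L) {v : ℂ} {κ : ℕ → ℂ}
    (hκ : ∀ N, 1 ≤ N → ‖κ N‖ = a N) {C : ℝ}
    (hC : ∀ᶠ N : ℕ in atTop, ‖κ N‖ ≤ C * ((N : ℝ) ^ ((3 : ℝ) / 2) * Real.exp (v.re * N))) :
    L / (2 * Real.pi) ≤ v.re := by
  have hpi := Real.pi_pos
  by_contra hlt
  push_neg at hlt
  set δ : ℝ := (L / (2 * Real.pi) - v.re) / 4 with hδ
  have hδ0 : 0 < δ := by rw [hδ]; linarith
  have hlim : Tendsto (fun N : ℕ => C * ((N : ℝ) ^ ((3 : ℝ) / 2) * Real.exp (-(2 * δ) * N)))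
      atTop (𝓝 0) := by
    have h1 := (tendsto_rpow_mul_exp_neg_mul_atTop_nhds_zero ((3 : ℝ) / 2) (2 * δ)
      (by positivity)).comp tendsto_natCast_atTop_atTop
    have h2 := h1.const_mul C
    rw [mul_zero] at h2
    exact h2
  obtain ⟨N, h1, h2, h3, h4⟩ := ((h δ hδ0).and (hC.and ((hlim.eventually
    (gt_mem_nhds (zero_lt_one : (0 : ℝ) < 1))).and (eventually_gt_atTop 0)))).exists
  have hNR : (0 : ℝ) ≤ N := Nat.cast_nonneg _
  rw [hκ N h4] at h2
  have h5 : Real.exp ((L / (2 * Real.pi) - δ) * N) ≤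
      C * ((N : ℝ) ^ ((3 : ℝ) / 2) * Real.exp (v.re * N)) := h1.trans h2
  have h6 : Real.exp (v.re * N) = Real.exp (-(2 * δ) * N) * Real.exp ((v.re + 2 * δ) * N) := by
    rw [← Real.exp_add]
    congr 1
    ring
  have h7 : Real.exp ((v.re + 2 * δ) * N) ≤ Real.exp ((L / (2 * Real.pi) - δ) * N) :=
    Real.exp_le_exp.2 (mul_le_mul_of_nonneg_right (by rw [hδ]; linarith) hNR)
  have h8 : 0 < Real.exp ((v.re + 2 * δ) * N) := Real.exp_pos _
  have h9 : C * ((N : ℝ) ^ ((3 : ℝ) / 2) * Real.exp (v.re * N)) =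
      (C * ((N : ℝ) ^ ((3 : ℝ) / 2) * Real.exp (-(2 * δ) * N))) *
        Real.exp ((v.re + 2 * δ) * N) := by
    rw [h6]; ring
  rw [h9] at h5
  have h10 := mul_lt_mul_of_pos_right h3 h8
  linarith

end Pool.Agent.V1199.TB
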